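import Pool.Agent.U856.BM.Stm1

/-!
# Project BM, package TR: transitivity of billiard orbits
-/

set_option autoImplicit false

open Set

namespace Pool.Agent.U399.BM.TR

open Pool.Agent.U856.BM

/-- extension of the last straight piece -/
lemma ext_last (P : Set ℂ) (x e : ℂ) (t : ℝ) (y f : ℂ) (h : Orb P x e t y f) (s : ℝ) (hs : 0 ≤ s)
    (hint : ∀ r ∈ Icc 0 s, y + r • f ∈ interior P) : Orb P x e (t + s) (y + s • f) f := by
  induction h with
  | start t ht h =>
    have h1 : Orb P x e (t + s) (x + (t + s) • e) e := by
      refine Orb.start (t + s) (by linarith) fun r hr => ?_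
      rcases le_total r t with hrt | hrt
      · exact h r ⟨hr.1, hrt⟩
      · have h2 := hint (r - t) ⟨by linarith, by linarith [hr.2]⟩
        have h3 : x + t • e + (r - t) • e = x + r • e := by module
        rwa [h3] at h2
    have h4 : x + (t + s) • e = x + t • e + s • e := by module
    rwa [h4] at h1
  | bounce t s' u y f n ho hs' hu h1 h2 h3 ih =>
    have h4 : Orb P x e (t + s' + (u + s)) (y + s' • f + (u + s) • rf n f) (rf n f) := by
      refine Orb.bounce t s' (u + s) y f n ho hs' (by linarith) h1 h2 fun r hr => ?_
      rcases le_total r u with hru | hru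
      · exact h3 r ⟨hr.1, hru⟩
      · have h5 := hint (r - u) ⟨by linarith, by linarith [hr.2]⟩
        have h6 : y + s' • f + u • rf n f + (r - u) • rf n f = y + s' • f + r • rf n f := by module
        rwa [h6] at h5
    have h5 : y + s' • f + (u + s) • rf n f = y + s' • f + u • rf n f + s • rf n f := by module
    rw [h5] at h4
    have h6 : t + s' + (u + s) = t + s' + u + s := by ring
    rwa [h6] at h4

theorem t_TR : S_TR := by
  intro P x e y f z g t s h1 h2
  induction h2 with
  | start s hs hint => exact ext_last P x e t y f h1 s hs hint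
  | bounce t' s u y f n ho hs hu h3 h4 h5 ih =>
    have h6 := Orb.bounce (t + t') s u y f n ih hs hu h3 h4 h5
    have h7 : t + t' + s + u = t + (t' + s + u) := by ring
    rwa [h7] at h6

end Pool.Agent.U399.BM.TR
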